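import Pool.Agent.N178.HW.Defs
import Pool.Agent.V1168.GH.Ideal

/-!
# Equivariant maps between highest weight modules (task GHC/E)
-/

set_option autoImplicit false
set_option linter.unusedSectionVars false

namespace Pool.Agent.N803.GHC

open Finset Matrix Pool.Agent.W437.HC Pool.Agent.V1168.GH Pool.Agent.N178.HW

noncomputable section

variable {R P : Type} [Fintype R] [DecidableEq R] [DecidableEq P] {cls : R → P} {b : P → P}
  {inv : R → R} {jj : R → ℂ} {X : R → Prop} {h : R → ℤ} {T : Submodule ℂ (P → ℂ)}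

theorem inv_inj (hF : Fr cls b inv jj X) {x y : R} (hxy : inv x = inv y) : x = y := by
  rw [← hF.ii x, hxy, hF.ii]

theorem inv_ne (hF : Fr cls b inv jj X) (x : R) : x ≠ inv x := by
  intro hx
  have h1 := hF.jn x
  rw [← hx] at h1
  rcases hF.j1 x with h2 | h2 <;> rw [h2] at h1 <;> norm_num at h1

theorem jj_mul (hF : Fr cls b inv jj X) (x : R) : jj x * jj x = 1 := by
  rcases hF.j1 x with h | h <;> rw [h] <;> ring

theorem sjj (hF : Fr cls b inv jj X) (x : R) : star (jj x) = jj x := by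
  rcases hF.j1 x with h | h <;> rw [h] <;> simp

theorem sum_inv {M : Type*} [AddCommMonoid M] (hF : Fr cls b inv jj X) (f : R → M) :
    ∑ x, f (inv x) = ∑ x, f x :=
  Fintype.sum_bijective inv (Function.Involutive.bijective hF.ii) _ _ fun _ => rfl

/-- The commutators. -/
theorem GR_comm (hF : Fr cls b inv jj X) {Y Z : Matrix R R ℂ} (hY : Y ∈ GR cls inv jj T)
    (hZ : Z ∈ GR cls inv jj T) : Y * Z - Z * Y ∈ GR cls inv jj T := by
  obtain ⟨y1, y2, y3⟩ := hY
  obtain ⟨z1, z2, z3⟩ := hZ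
  have hmul : ∀ {A B : Matrix R R ℂ}, (∀ x y, cls x ≠ cls y → A x y = 0) →
      (∀ x y, cls x ≠ cls y → B x y = 0) → ∀ x y, cls x ≠ cls y → (A * B) x y = 0 := by
    intro A B hA hB x y hxy
    rw [Matrix.mul_apply]
    refine sum_eq_zero fun z _ => ?_
    by_cases h1 : cls x = cls z
    · rw [hB z y (fun h2 => hxy (h1.trans h2)), mul_zero]
    · rw [hA x z h1, zero_mul]
  have hinv : ∀ {A B : Matrix R R ℂ}, (∀ x y, A (inv y) (inv x) = -(jj x * jj y * A x y)) →
      (∀ x y, B (inv y) (inv x) = -(jj x * jj y * B x y)) →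
      ∀ x y, (A * B) (inv y) (inv x) = jj x * jj y * (B * A) x y := by
    intro A B hA hB x y
    rw [Matrix.mul_apply, Matrix.mul_apply, ← sum_inv hF, mul_sum]
    refine sum_congr rfl fun z _ => ?_
    rw [hA z y, hB x z]
    have := jj_mul hF z
    linear_combination (jj y * jj x * A z y * B x z) * this
  refine ⟨fun x y hxy => ?_, fun x y => ?_, ?_⟩
  · rw [Matrix.sub_apply, hmul y1 z1 x y hxy, hmul z1 y1 x y hxy, sub_zero]
  · rw [Matrix.sub_apply, Matrix.sub_apply, hinv y2 z2, hinv z2 y2]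
    ring
  · have h0 : (fun p => ∑ x ∈ univ.filter (fun x => cls x = p), (Y * Z - Z * Y) x x) = 0 := by
      funext p
      have h1 : ∀ {A B : Matrix R R ℂ}, (∀ x y, cls x ≠ cls y → A x y = 0) →
          ∑ x ∈ univ.filter (fun x => cls x = p), (A * B) x x =
          ∑ x ∈ univ.filter (fun x => cls x = p), ∑ z ∈ univ.filter (fun x => cls x = p),
            A x z * B z x := by
        intro A B hA
        refine sum_congr rfl fun x hx => ?_
        rw [mem_filter] at hx
        rw [Matrix.mul_apply, sum_filter]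
        refine sum_congr rfl fun z _ => ?_
        by_cases h2 : cls z = p
        · rw [if_pos h2]
        · rw [if_neg h2, hA x z (fun h3 => h2 (h3.symm.trans hx.2)), zero_mul]
      have h2 : ∑ x ∈ univ.filter (fun x => cls x = p), (Y * Z - Z * Y) x x =
          ∑ x ∈ univ.filter (fun x => cls x = p), (Y * Z) x x -
          ∑ x ∈ univ.filter (fun x => cls x = p), (Z * Y) x x := by
        rw [← sum_sub_distrib]
        exact sum_congr rfl fun x _ => rfl
      rw [h2, h1 y1, h1 z1, sum_comm, Pi.zero_apply, sub_eq_zero]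
      exact sum_congr rfl fun x _ => sum_congr rfl fun z _ => mul_comm _ _
    rw [h0]
    exact T.zero_mem

/-- The adjoints. -/
theorem GR_adj (hF : Fr cls b inv jj X) (hT : ∀ t ∈ T, (fun p => (starRingEnd ℂ) (t p)) ∈ T)
    {Y : Matrix R R ℂ} (hY : Y ∈ GR cls inv jj T) : Yᴴ ∈ GR cls inv jj T := by
  obtain ⟨y1, y2, y3⟩ := hY
  refine ⟨fun x y hxy => ?_, fun x y => ?_, ?_⟩
  · rw [conjTranspose_apply, y1 y x hxy.symm, star_zero]
  · rw [conjTranspose_apply, conjTranspose_apply, y2 y x, star_neg, star_mul', star_mul']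
    have h1 : star (jj x) = jj x := sjj hF x
    have h2 : star (jj y) = jj y := sjj hF y
    rw [h1, h2]
    ring
  · have h1 := hT _ y3
    have h2 : (fun p => ∑ x ∈ univ.filter (fun x => cls x = p), Yᴴ x x) =
        fun p => (starRingEnd ℂ) (∑ x ∈ univ.filter (fun x => cls x = p), Y x x) := by
      funext p
      rw [map_sum]
      exact sum_congr rfl fun x _ => rfl
    rw [h2]
    exact h1

theorem EE_adj (hF : Fr cls b inv jj X) (x y : R) : (EE inv jj x y)ᴴ = EE inv jj y x := by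
  unfold EE
  rw [conjTranspose_sub, conjTranspose_smul, conjTranspose_single, conjTranspose_single]
  have h1 : star (jj x) = jj x := sjj hF x
  have h2 : star (jj y) = jj y := sjj hF y
  rw [star_mul', h1, h2, star_one, mul_comm (jj y)]

theorem EE_mem (hF : Fr cls b inv jj X) {x y : R} (hxy : cls x = cls y) (hne : x ≠ y) :
    EE inv jj x y ∈ GR cls inv jj T := by
  have hE : ∀ u v, EE inv jj x y u v = (if x = u ∧ y = v then 1 else 0) -
      (jj x * jj y) * (if inv y = u ∧ inv x = v then 1 else 0) := by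
    intro u v
    unfold EE
    rw [Matrix.sub_apply, Matrix.smul_apply, Matrix.single_apply, Matrix.single_apply, smul_eq_mul]
  refine ⟨fun u v huv => ?_, fun u v => ?_, ?_⟩
  · rw [hE, if_neg, if_neg, mul_zero, sub_zero]
    · rintro ⟨rfl, rfl⟩
      apply huv
      rw [hF.ci, hF.ci, hxy]
    · rintro ⟨rfl, rfl⟩
      exact huv hxy
  · rw [hE, hE]
    have e1 : (x = inv v ∧ y = inv u) ↔ (inv y = u ∧ inv x = v) := by
      constructor
      · rintro ⟨rfl, rfl⟩
        exact ⟨hF.ii u, hF.ii v⟩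
      · rintro ⟨rfl, rfl⟩
        exact ⟨(hF.ii x).symm, (hF.ii y).symm⟩
    have e2 : (inv y = inv v ∧ inv x = inv u) ↔ (x = u ∧ y = v) := by
      constructor
      · rintro ⟨h1, h2⟩
        exact ⟨inv_inj hF h2, inv_inj hF h1⟩
      · rintro ⟨rfl, rfl⟩
        exact ⟨rfl, rfl⟩
    simp only [e1, e2]
    by_cases h1 : inv y = u ∧ inv x = v
    · by_cases h2 : x = u ∧ y = v
      · rw [if_pos h1, if_pos h2]
        obtain ⟨rfl, rfl⟩ := h2
        have := jj_mul hF x
        have := jj_mul hF y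
        linear_combination (- jj x * jj x ) * jj_mul hF y - jj_mul hF x
      · rw [if_pos h1, if_neg h2]
        obtain ⟨rfl, rfl⟩ := h1
        rw [hF.jn, hF.jn]
        linear_combination (- jj x * jj x) * jj_mul hF y - jj_mul hF x
    · by_cases h2 : x = u ∧ y = v
      · rw [if_neg h1, if_pos h2]
        obtain ⟨rfl, rfl⟩ := h2
        ring
      · rw [if_neg h1, if_neg h2]
        ring
  · have h0 : (fun p => ∑ u ∈ univ.filter (fun u => cls u = p), EE inv jj x y u u) = 0 := by
      funext p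
      refine sum_eq_zero fun u _ => ?_
      rw [hE, if_neg, if_neg, mul_zero, sub_zero]
      · rintro ⟨h1, h2⟩
        exact hne (inv_inj hF (h2.trans h1.symm))
      · rintro ⟨h1, h2⟩
        exact hne (h1.trans h2.symm)
    rw [h0]
    exact T.zero_mem

theorem dsum (f : R → R → ℂ) (u v : R) :
    ∑ x, ∑ y, f x y * (if x = u ∧ y = v then 1 else 0) = f u v := by
  rw [sum_eq_single u, sum_eq_single v]
  · rw [if_pos ⟨rfl, rfl⟩, mul_one]
  · intro y _ hy
    rw [if_neg (fun h => hy h.2), mul_zero]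
  · intro h
    exact absurd (mem_univ _) h
  · intro x _ hx
    refine sum_eq_zero fun y _ => ?_
    rw [if_neg (fun h => hx h.1), mul_zero]
  · intro h
    exact absurd (mem_univ _) h

/-- The decomposition of the elements of `GR`. -/
theorem GR_dec (hF : Fr cls b inv jj X) {Y : Matrix R R ℂ} (hY : Y ∈ GR cls inv jj T) :
    Y = (1 / 2 : ℂ) • (∑ x, ∑ y, (if x = y then 0 else Y x y) • EE inv jj x y) +
      Matrix.diagonal (fun x => Y x x) := by
  obtain ⟨y1, y2, y3⟩ := hY
  ext u v
  rw [Matrix.add_apply, Matrix.smul_apply, Matrix.sum_apply]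
  have h1 : ∀ x, (∑ y, (if x = y then 0 else Y x y) • EE inv jj x y) u v =
      ∑ y, (if x = y then 0 else Y x y) * (if x = u ∧ y = v then 1 else 0) -
      ∑ y, ((if x = y then 0 else Y x y) * jj x * jj y) *
        (if x = inv v ∧ y = inv u then 1 else 0) := by
    intro x
    rw [Matrix.sum_apply, ← sum_sub_distrib]
    refine sum_congr rfl fun y _ => ?_
    have e1 : (inv y = u ∧ inv x = v) ↔ (x = inv v ∧ y = inv u) := by
      constructor
      · rintro ⟨rfl, rfl⟩
        exact ⟨(hF.ii x).symm, (hF.ii y).symm⟩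
      · rintro ⟨rfl, rfl⟩
        exact ⟨hF.ii u, hF.ii v⟩
    unfold EE
    rw [Matrix.smul_apply, Matrix.sub_apply, Matrix.smul_apply, Matrix.single_apply,
      Matrix.single_apply, smul_eq_mul, smul_eq_mul]
    simp only [e1]
    ring
  rw [sum_congr rfl fun x _ => h1 x, sum_sub_distrib, dsum, dsum, y2 u v, smul_eq_mul]
  by_cases huv : u = v
  · subst huv
    rw [Matrix.diagonal_apply_eq]
    simp
  · rw [Matrix.diagonal_apply_ne _ huv, if_neg huv, if_neg (fun h => huv (inv_inj hF h).symm),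
      hF.jn, hF.jn]
    linear_combination (-1 / 2 * Y u v * jj u * jj u) * jj_mul hF v - (1 / 2 * Y u v) * jj_mul hF u

/-! ### The diagonal elements -/

variable {κ κ' : Type} [Fintype κ] [DecidableEq κ] [Fintype κ'] [DecidableEq κ']

theorem act_diag (d : R → ℂ) (v : (κ → R) → ℂ) (z : κ → R) :
    act (Matrix.diagonal d) v z = wt d z * v z := by
  unfold act wt
  rw [sum_mul]
  refine sum_congr rfl fun k _ => ?_
  rw [sum_eq_single (z k)]
  · rw [Matrix.diagonal_apply_eq, Function.update_eq_self]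
  · intro j _ hj
    rw [Matrix.diagonal_apply_ne _ hj, zero_mul]
  · intro h
    exact absurd (mem_univ _) h

theorem HV_diag {v : (κ → R) → ℂ} {c : R → ℤ} (hv : HV cls inv jj T h v c) {d : R → ℂ}
    (hd : Dg cls inv T d) :
    act (Matrix.diagonal d) v = ((1 / 2 : ℂ) * ∑ x, (c x : ℂ) * d x) • v := by
  funext z
  rw [act_diag, Pi.smul_apply, smul_eq_mul]
  by_cases hz : v z = 0
  · rw [hz, mul_zero, mul_zero]
  · rw [← hv.wts z hz d hd]
    ring

theorem diag_mem {Y : Matrix R R ℂ} (hF : Fr cls b inv jj X) (hY : Y ∈ GR cls inv jj T) :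
    Dg cls inv T (fun x => Y x x) := by
  obtain ⟨y1, y2, y3⟩ := hY
  refine ⟨fun x => ?_, y3⟩
  show Y (inv x) (inv x) = -(Y x x)
  rw [y2 x x, jj_mul hF, one_mul]

/-! ### The words -/

/-- The pairs obtained from `(v, w)` by lowering operators. -/
inductive Wd (cls : R → P) (inv : R → R) (jj : R → ℂ) (h : R → ℤ) (v : (κ → R) → ℂ)
    (w : (κ' → R) → ℂ) : ((κ → R) → ℂ) × ((κ' → R) → ℂ) → Prop
  | base : Wd cls inv jj h v w (v, w)
  | step (x y : R) (p : ((κ → R) → ℂ) × ((κ' → R) → ℂ)) : cls x = cls y → h x < h y →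
      Wd cls inv jj h v w p → Wd cls inv jj h v w (act (EE inv jj y x) p.1, act (EE inv jj y x) p.2)

/-- Their span. -/
def NN (cls : R → P) (inv : R → R) (jj : R → ℂ) (h : R → ℤ) (v : (κ → R) → ℂ)
    (w : (κ' → R) → ℂ) : Submodule ℂ (((κ → R) → ℂ) × ((κ' → R) → ℂ)) :=
  Submodule.span ℂ {p | Wd cls inv jj h v w p}

/-- The action on pairs. -/
def act2 (Y : Matrix R R ℂ) :
    (((κ → R) → ℂ) × ((κ' → R) → ℂ)) →ₗ[ℂ] (((κ → R) → ℂ) × ((κ' → R) → ℂ)) where
  toFun p := (act Y p.1, act Y p.2)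
  map_add' p q := Prod.ext (act_add_right Y p.1 q.1) (act_add_right Y p.2 q.2)
  map_smul' a p := Prod.ext (act_smul_right a Y p.1) (act_smul_right a Y p.2)

theorem act2_apply (Y : Matrix R R ℂ) (p : ((κ → R) → ℂ) × ((κ' → R) → ℂ)) :
    act2 Y p = (act Y p.1, act Y p.2) := rfl

/-- The action on pairs, as a linear map in the matrix. -/
def act2L (p : ((κ → R) → ℂ) × ((κ' → R) → ℂ)) :
    Matrix R R ℂ →ₗ[ℂ] (((κ → R) → ℂ) × ((κ' → R) → ℂ)) where
  toFun Y := act2 Y p
  map_add' Y Z := Prod.ext (act_add_left Y Z p.1) (act_add_left Y Z p.2)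
  map_smul' a Y := Prod.ext (act_smul_left a Y p.1) (act_smul_left a Y p.2)

theorem act2L_apply (p : ((κ → R) → ℂ) × ((κ' → R) → ℂ)) (Y : Matrix R R ℂ) :
    act2L p Y = act2 Y p := rfl

theorem act2_comm (Y Z : Matrix R R ℂ) (p : ((κ → R) → ℂ) × ((κ' → R) → ℂ)) :
    act2 Y (act2 Z p) = act2 Z (act2 Y p) + act2 (Z * Y - Y * Z) p := by
  refine Prod.ext ?_ ?_
  · show act Y (act Z p.1) = act Z (act Y p.1) + act (Z * Y - Y * Z) p.1
    rw [← act_comm]
    abel
  · show act Y (act Z p.2) = act Z (act Y p.2) + act (Z * Y - Y * Z) p.2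
    rw [← act_comm]
    abel

variable {v : (κ → R) → ℂ} {w : (κ' → R) → ℂ}

/-- The span is stable under the lowering operators. -/
theorem NN_low {x y : R} (hxy : cls x = cls y) (hlt : h x < h y)
    {p : ((κ → R) → ℂ) × ((κ' → R) → ℂ)} (hp : p ∈ NN cls inv jj h v w) :
    act2 (EE inv jj y x) p ∈ NN cls inv jj h v w := by
  induction hp using Submodule.span_induction with
  | mem p hp => exact Submodule.subset_span (Wd.step x y p hxy hlt hp)
  | zero => rw [map_zero]; exact Submodule.zero_mem _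
  | add p q _ _ hp hq => rw [map_add]; exact Submodule.add_mem _ hp hq
  | smul a p _ hp => rw [map_smul]; exact Submodule.smul_mem _ a hp

theorem Wd_stable (hF : Fr cls b inv jj X) (hH : Hgt cls inv X h) {c c' : R → ℤ}
    (hv : HV cls inv jj T h v c) (hw : HV cls inv jj T h w c')
    (hcc : ∀ d, Dg cls inv T d → ∑ x, (c x : ℂ) * d x = ∑ x, (c' x : ℂ) * d x)
    {p : ((κ → R) → ℂ) × ((κ' → R) → ℂ)} (hp : Wd cls inv jj h v w p) :
    ∀ Y ∈ GR cls inv jj T, act2 Y p ∈ NN cls inv jj h v w := by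
  induction hp with
  | base =>
    intro Y hY
    have hbase : ((v, w) : ((κ → R) → ℂ) × ((κ' → R) → ℂ)) ∈ NN cls inv jj h v w :=
      Submodule.subset_span Wd.base
    have h1 := GR_dec hF hY
    have h2 : act2 Y (v, w) = act2L (v, w) Y := rfl
    rw [h2, h1, map_add, map_smul, map_sum]
    refine Submodule.add_mem _ (Submodule.smul_mem _ _ (Submodule.sum_mem _ fun x _ => ?_)) ?_
    · rw [map_sum]
      refine Submodule.sum_mem _ fun y _ => ?_
      rw [map_smul]
      by_cases hxy : x = y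
      · rw [if_pos hxy, zero_smul]
        exact Submodule.zero_mem _
      · rw [if_neg hxy]
        by_cases hc : cls x = cls y
        · refine Submodule.smul_mem _ _ ?_
          rcases lt_trichotomy (h x) (h y) with h3 | h3 | h3
          · have e : act2L (v, w) (EE inv jj x y) = 0 :=
              Prod.ext (hv.kill x y hc h3) (hw.kill x y hc h3)
            rw [e]
            exact Submodule.zero_mem _
          · exact absurd (hH.inj x y hc h3) hxy
          · exact NN_low hc.symm h3 hbase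
        · rw [hY.1 x y hc, zero_smul]
          exact Submodule.zero_mem _
    · have hd := diag_mem hF hY
      have e : act2L (v, w) (Matrix.diagonal fun x => Y x x) =
          ((1 / 2 : ℂ) * ∑ x, (c x : ℂ) * Y x x) • (v, w) := by
        refine Prod.ext (HV_diag hv hd) ?_
        rw [hcc _ hd]
        exact HV_diag hw hd
      rw [e]
      exact Submodule.smul_mem _ _ hbase
  | step x y p hxy hlt hp ih =>
    intro Y hY
    have hF' : EE inv jj y x ∈ GR cls inv jj T :=
      EE_mem hF hxy.symm (fun e => by rw [e] at hlt; exact lt_irrefl _ hlt)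
    have h1 : act2 Y (act2 (EE inv jj y x) p) = act2 (EE inv jj y x) (act2 Y p) +
      act2 (EE inv jj y x * Y - Y * EE inv jj y x) p := act2_comm _ _ _
    have h2 : act2 Y (act (EE inv jj y x) p.1, act (EE inv jj y x) p.2) =
      act2 Y (act2 (EE inv jj y x) p) := rfl
    rw [h2, h1]
    exact Submodule.add_mem _ (NN_low hxy hlt (ih Y hY)) (ih _ (GR_comm hF hF' hY))

theorem NN_stable (hF : Fr cls b inv jj X) (hH : Hgt cls inv X h) {c c' : R → ℤ}
    (hv : HV cls inv jj T h v c) (hw : HV cls inv jj T h w c')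
    (hcc : ∀ d, Dg cls inv T d → ∑ x, (c x : ℂ) * d x = ∑ x, (c' x : ℂ) * d x)
    {Y : Matrix R R ℂ} (hY : Y ∈ GR cls inv jj T)
    {p : ((κ → R) → ℂ) × ((κ' → R) → ℂ)} (hp : p ∈ NN cls inv jj h v w) :
    act2 Y p ∈ NN cls inv jj h v w := by
  induction hp using Submodule.span_induction with
  | mem p hp => exact Wd_stable hF hH hv hw hcc hp Y hY
  | zero => rw [map_zero]; exact Submodule.zero_mem _
  | add p q _ _ hp hq => rw [map_add]; exact Submodule.add_mem _ hp hq
  | smul a p _ hp => rw [map_smul]; exact Submodule.smul_mem _ a hp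

/-! ### The Hermitian product -/

theorem ip_add_right' {ι : Type*} [Fintype ι] (u c d : ι → ℂ) :
    ip u (c + d) = ip u c + ip u d := by
  unfold ip
  rw [← sum_add_distrib]
  exact sum_congr rfl fun I _ => by rw [Pi.add_apply, mul_add]

theorem ip_smul_right' {ι : Type*} [Fintype ι] (a : ℂ) (u c : ι → ℂ) :
    ip u (a • c) = a * ip u c := by
  unfold ip
  rw [mul_sum]
  exact sum_congr rfl fun I _ => by rw [Pi.smul_apply, smul_eq_mul]; ring

theorem ip_zero_right' {ι : Type*} [Fintype ι] (u : ι → ℂ) : ip u 0 = 0 := by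
  unfold ip
  exact sum_eq_zero fun I _ => by rw [Pi.zero_apply, mul_zero]

/-- The first coefficient. -/
theorem coef (hF : Fr cls b inv jj X) {c c' : R → ℤ}
    (hv : HV cls inv jj T h v c) (hw : HV cls inv jj T h w c')
    {p : ((κ → R) → ℂ) × ((κ' → R) → ℂ)} (hp : p ∈ NN cls inv jj h v w) :
    ∃ α : ℂ, ip v p.1 = α * ip v v ∧ ip w p.2 = α * ip w w := by
  induction hp using Submodule.span_induction with
  | mem p hp =>
    cases hp with
    | base => exact ⟨1, by rw [one_mul], by rw [one_mul]⟩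
    | step x y p hxy hlt hp =>
      refine ⟨0, ?_, ?_⟩
      · rw [zero_mul, ← ip_act, EE_adj hF, hv.kill x y hxy hlt, ip_zero_left]
      · rw [zero_mul, ← ip_act, EE_adj hF, hw.kill x y hxy hlt, ip_zero_left]
  | zero => exact ⟨0, by rw [zero_mul]; exact ip_zero_right' _, by rw [zero_mul]; exact ip_zero_right' _⟩
  | add p q _ _ hp hq =>
    obtain ⟨α, h1, h2⟩ := hp
    obtain ⟨β, h3, h4⟩ := hq
    refine ⟨α + β, ?_, ?_⟩
    · rw [Prod.fst_add, ip_add_right', h1, h3, add_mul]
    · rw [Prod.snd_add, ip_add_right', h2, h4, add_mul]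
  | smul a p _ hp =>
    obtain ⟨α, h1, h2⟩ := hp
    refine ⟨a * α, ?_, ?_⟩
    · rw [Prod.smul_fst, ip_smul_right', h1, mul_assoc]
    · rw [Prod.smul_snd, ip_smul_right', h2, mul_assoc]

theorem NN_graph (hF : Fr cls b inv jj X) (hH : Hgt cls inv X h) {c c' : R → ℤ}
    (hv : HV cls inv jj T h v c) (hw : HV cls inv jj T h w c') (hv0 : v ≠ 0)
    (hcc : ∀ d, Dg cls inv T d → ∑ x, (c x : ℂ) * d x = ∑ x, (c' x : ℂ) * d x)
    {u : (κ' → R) → ℂ} (hu : ((0 : (κ → R) → ℂ), u) ∈ NN cls inv jj h v w) : u = 0 := by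
  have hvv : ip v v ≠ 0 := fun h0 => hv0 (ip_self h0)
  -- orthogonal to all words
  have h1 : ∀ {p : ((κ → R) → ℂ) × ((κ' → R) → ℂ)}, Wd cls inv jj h v w p →
      ∀ b' : (κ' → R) → ℂ, ((0 : (κ → R) → ℂ), b') ∈ NN cls inv jj h v w → ip p.2 b' = 0 := by
    intro p hp
    induction hp with
    | base =>
      intro b' hb
      obtain ⟨α, h2, h3⟩ := coef hF hv hw hb
      have h4 : (0 : ℂ) = α * ip v v := by rw [← h2]; exact (ip_zero_right' _).symm
      have h5 : α = 0 := (mul_eq_zero.1 h4.symm).resolve_right hvv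
      show ip w b' = 0
      have h6 : ip w b' = α * ip w w := h3
      rw [h6, h5, zero_mul]
    | step x y p hxy hlt hp ih =>
      intro b' hb
      have hne : x ≠ y := fun e => by rw [e] at hlt; exact lt_irrefl _ hlt
      have hE : EE inv jj x y ∈ GR cls inv jj T := EE_mem hF hxy hne
      show ip (act (EE inv jj y x) p.2) b' = 0
      have h7 : EE inv jj y x = (EE inv jj x y)ᴴ := (EE_adj hF x y).symm
      rw [h7, ip_act]
      apply ih
      have h8 := NN_stable hF hH hv hw hcc hE hb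
      rw [act2_apply, act_zero_right] at h8
      exact h8
  have h2 : ∀ {p : ((κ → R) → ℂ) × ((κ' → R) → ℂ)}, p ∈ NN cls inv jj h v w → ip p.2 u = 0 := by
    intro p hp
    induction hp using Submodule.span_induction with
    | mem p hp => exact h1 hp u hu
    | zero => exact ip_zero_left _
    | add p q _ _ hp hq => rw [Prod.snd_add, ip_add_left, hp, hq, add_zero]
    | smul a p _ hp => rw [Prod.smul_snd, ip_smul_left, hp, mul_zero]
  exact ip_self (h2 hu)

/-! ### The map -/

/-- The orthogonal complement. -/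
def perp {ι : Type*} [Fintype ι] (U : Submodule ℂ (ι → ℂ)) : Submodule ℂ (ι → ℂ) where
  carrier := {c | ∀ u ∈ U, ip u c = 0}
  zero_mem' := fun u _ => ip_zero_right' u
  add_mem' := fun {c d} hc hd u hu => by rw [ip_add_right', hc u hu, hd u hu, add_zero]
  smul_mem' := fun a c hc u hu => by rw [ip_smul_right', hc u hu, mul_zero]

theorem perp_compl {ι : Type*} [Fintype ι] (U : Submodule ℂ (ι → ℂ)) : IsCompl U (perp U) := by
  constructor
  · rw [Submodule.disjoint_def]
    intro x hx hx'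
    exact ip_self (hx' x hx)
  · rw [codisjoint_iff, eq_top_iff]
    refine le_of_compl le_top ?_
    intro u _ hu
    apply ip_self
    refine hu u ?_
    exact Submodule.mem_sup_right (fun v hv => hu v (Submodule.mem_sup_left hv))

theorem t_GRAPH : S_GRAPH := by
  intro κ κ' R P _ _ _ _ _ _ _ cls b inv jj X h T hF hH hT v w c c' hv hw hv0 hw0 hcc
  set N := NN cls inv jj h v w with hN
  have hg : ∀ x ∈ N, x.fst = 0 → x.snd = 0 := by
    rintro ⟨x1, x2⟩ hx hx1
    have : x1 = 0 := hx1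
    subst this
    exact NN_graph hF hH hv hw hv0 hcc hx
  set N1 : Submodule ℂ ((κ → R) → ℂ) := N.map (LinearMap.fst ℂ _ _) with hN1
  have hst : ∀ Y ∈ GR cls inv jj T, ∀ p ∈ N, act2 Y p ∈ N := fun Y hY p hp =>
    NN_stable hF hH hv hw hcc hY hp
  have hst1 : ∀ Y ∈ GR cls inv jj T, ∀ u ∈ N1, act Y u ∈ N1 := by
    rintro Y hY u ⟨p, hp, rfl⟩
    exact ⟨act2 Y p, hst Y hY p hp, rfl⟩
  have hst2 : ∀ Y ∈ GR cls inv jj T, ∀ u ∈ perp N1, act Y u ∈ perp N1 := by
    intro Y hY u hu x hx
    rw [← ip_act]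
    exact hu _ (hst1 _ (GR_adj hF hT hY) x hx)
  have hcompl := perp_compl N1
  have hmem := Submodule.mem_graph_toLinearPMap hg
  have huniq : ∀ (u : N1) (t : (κ' → R) → ℂ), ((u : (κ → R) → ℂ), t) ∈ N →
      N.toLinearPMap u = t := by
    intro u t ht
    have h1 := N.sub_mem (hmem u) ht
    have h2 := hg _ h1 (by simp)
    exact sub_eq_zero.1 h2
  let π : ((κ → R) → ℂ) →ₗ[ℂ] N1 := N1.projectionOnto (perp N1) hcompl
  have hπ1 : ∀ (u : (κ → R) → ℂ) (hu : u ∈ N1), π u = ⟨u, hu⟩ := fun u hu =>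
    Submodule.projectionOnto_apply_left hcompl ⟨u, hu⟩
  have hπ2 : ∀ u : (κ → R) → ℂ, u ∈ perp N1 → π u = 0 := fun u hu =>
    (Submodule.projectionOnto_apply_eq_zero_iff hcompl).2 hu
  refine ⟨N.toLinearPMap.toFun ∘ₗ π, ?_, ?_⟩
  · intro Y hY u
    show N.toLinearPMap (π (act Y u)) = act Y (N.toLinearPMap (π u))
    apply huniq
    have h1 := hst Y hY _ (hmem (π u))
    have h2 : ((π (act Y u) : N1) : (κ → R) → ℂ) = act Y ((π u : N1) : (κ → R) → ℂ) := by
      have h3 : u ∈ N1 ⊔ perp N1 := by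
        rw [hcompl.sup_eq_top]
        exact Submodule.mem_top
      obtain ⟨u1, hu1, u2, hu2, rfl⟩ := Submodule.mem_sup.1 h3
      rw [act_add_right, map_add, map_add, hπ1 u1 hu1, hπ2 u2 hu2, hπ1 _ (hst1 Y hY u1 hu1),
        hπ2 _ (hst2 Y hY u2 hu2), add_zero, add_zero]
    rw [h2]
    exact h1
  · have hvN : ((v, w) : ((κ → R) → ℂ) × ((κ' → R) → ℂ)) ∈ N := Submodule.subset_span Wd.base
    have hv1 : v ∈ N1 := ⟨(v, w), hvN, rfl⟩
    show N.toLinearPMap (π v) = w
    rw [hπ1 v hv1]
    exact huniq _ _ hvN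

end

end Pool.Agent.N803.GHC
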